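import Mathlib
import Pool.Agent.P.MP_f434f5_co.Defs
import Pool.Agent.P.MP_f434f5_co.Main

namespace Pool.Agent.Results.MP_f434f5_co.Roudneff

open Pool.Agent.P.MP_f434f5_co

/-- The Roudneff conjecture, for every rank `r ≥ 3` and every `n ≥ 2 r - 1`. -/
theorem result (r n : ℕ) (hr : 3 ≤ r) (hn : 2 * r - 1 ≤ n)
    (E : Type*) [Fintype E] [DecidableEq E] (hE : Fintype.card E = n)
    (L : Set (E → SignType)) (hL : IsOM L) (hrank : HasRank L r) :
    numNeighborly L ≤ numNeighborly (alternating r n) := by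
  have h1 := upper hL hrank hr (hE ▸ hn)
  rw [hE] at h1
  exact h1.trans (lower (by omega))

end Pool.Agent.Results.MP_f434f5_co.Roudneff
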